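import Mathlib
import Pool.Agent.N290.RI.Stm
import Pool.Agent.N290.RI.Un

/-!
# Riccati recursion for the corona problem on the ball of `ℂ²`, part C9: integrals of functions of
`1 - |w|²` against the kernel (project of helper290, this part by helper247)
-/

set_option autoImplicit false

open Complex MeasureTheory Set Filter Topology
open scoped ENNReal

namespace Pool.Agent.N247.RI

open Pool.Agent.N290.RI

theorem ker_meas (z : ℂ × ℂ) : Measurable (N290.RI.ker z) := by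
  have h1 : Continuous (Dl z) := by
    unfold Dl ip
    have := N_continuous
    fun_prop
  have h2 : Measurable (fun w => Real.sqrt (Dl z w) ^ 3) := (h1.measurable.sqrt).pow_const 3
  unfold N290.RI.ker
  exact h2.const_div 1

/-! ### The volume estimates -/

theorem norm_fst_lt {ξ : ℂ × ℂ} (h : ξ ∈ B) : ‖ξ.1‖ < 1 := by
  have h1 : ‖ξ.1‖ ^ 2 + ‖ξ.2‖ ^ 2 < 1 := h
  nlinarith [sq_nonneg ‖ξ.2‖, norm_nonneg ξ.1]

theorem u_ge {x : ℝ} (hx : 0 ≤ x) (ξ : ℂ × ℂ) : 1 - x * ‖ξ.1‖ ≤ ‖1 - (x : ℂ) * ξ.1‖ := by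
  have h1 : ‖(1 : ℂ)‖ - ‖(x : ℂ) * ξ.1‖ ≤ ‖1 - (x : ℂ) * ξ.1‖ := norm_sub_norm_le _ _
  rw [norm_one, norm_mul, Complex.norm_real, Real.norm_eq_abs, abs_of_nonneg hx] at h1
  exact h1

theorem vol_nm (r : ℝ) (hr : 0 ≤ r) :
    volume {ξ : ℂ × ℂ | nm ξ ≤ r} ≤ ENNReal.ofReal (Real.pi ^ 2 * r ^ 4) := by
  have h1 : {ξ : ℂ × ℂ | nm ξ ≤ r} ⊆ Metric.closedBall (0 : ℂ) r ×ˢ Metric.closedBall (0 : ℂ) r := by
    intro ξ hξ
    have h2 : N ξ ≤ r ^ 2 := by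
      rw [← nm_sq]
      exact pow_le_pow_left₀ (nm_nonneg ξ) hξ 2
    have h3 : ‖ξ.1‖ ^ 2 + ‖ξ.2‖ ^ 2 ≤ r ^ 2 := h2
    rw [mem_prod, mem_closedBall_zero_iff, mem_closedBall_zero_iff]
    constructor
    · exact abs_le_of_sq_le_sq' (by nlinarith [sq_nonneg ‖ξ.2‖]) hr |>.2
    · exact abs_le_of_sq_le_sq' (by nlinarith [sq_nonneg ‖ξ.1‖]) hr |>.2
  refine (measure_mono h1).trans (le_of_eq ?_)
  rw [Measure.volume_eq_prod, Measure.prod_prod, Complex.volume_closedBall]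
  have e : ((NNReal.pi : NNReal) : ℝ≥0∞) = ENNReal.ofReal Real.pi := by
    rw [ENNReal.ofReal, ← NNReal.coe_real_pi, Real.toNNReal_coe]
  rw [e, ← ENNReal.ofReal_pow hr, ← ENNReal.ofReal_mul (by positivity),
    ← ENNReal.ofReal_mul (by positivity)]
  congr 1
  ring

theorem vol_u {x : ℝ} (hx : 0 ≤ x) (hx1 : x < 1) (ε : ℝ) (hε : 0 < ε) :
    volume ({ξ : ℂ × ℂ | ‖1 - (x : ℂ) * ξ.1‖ < ε} ∩ B) ≤
      ENNReal.ofReal (8 * Real.pi ^ 2 * ε ^ 3) := by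
  have e : ((NNReal.pi : NNReal) : ℝ≥0∞) = ENNReal.ofReal Real.pi := by
    rw [ENNReal.ofReal, ← NNReal.coe_real_pi, Real.toNNReal_coe]
  -- the first coordinate
  have h1 : ∃ (c : ℂ), {ξ : ℂ × ℂ | ‖1 - (x : ℂ) * ξ.1‖ < ε} ∩ B ⊆
      Metric.ball c (2 * ε) ×ˢ Metric.ball (0 : ℂ) (Real.sqrt (2 * ε)) := by
    have h2 : ∀ ξ : ℂ × ℂ, ‖1 - (x : ℂ) * ξ.1‖ < ε → ξ ∈ B →
        ξ.2 ∈ Metric.ball (0 : ℂ) (Real.sqrt (2 * ε)) := by
      intro ξ h hB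
      rw [mem_ball_zero_iff]
      apply Real.lt_sqrt_of_sq_lt
      have h3 : ‖ξ.1‖ ^ 2 + ‖ξ.2‖ ^ 2 < 1 := hB
      have h4 := norm_fst_lt hB
      have h5 := u_ge hx ξ
      have h6 := norm_nonneg ξ.1
      nlinarith
    by_cases hx2 : 1 / 2 ≤ x
    · refine ⟨(x : ℂ)⁻¹, fun ξ hξ => ⟨?_, h2 ξ hξ.1 hξ.2⟩⟩
      rw [Metric.mem_ball, dist_eq_norm]
      have hx0 : (x : ℂ) ≠ 0 := by
        have : x ≠ 0 := by linarith
        exact_mod_cast this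
      have h3 : ‖1 - (x : ℂ) * ξ.1‖ = x * ‖ξ.1 - (x : ℂ)⁻¹‖ := by
        have h4 : 1 - (x : ℂ) * ξ.1 = -((x : ℂ) * (ξ.1 - (x : ℂ)⁻¹)) := by
          rw [mul_sub, mul_inv_cancel₀ hx0]
          ring
        rw [h4, norm_neg, norm_mul, Complex.norm_real, Real.norm_eq_abs, abs_of_nonneg hx]
      have h5 : ‖1 - (x : ℂ) * ξ.1‖ < ε := hξ.1
      rw [h3] at h5
      nlinarith [norm_nonneg (ξ.1 - (x : ℂ)⁻¹)]
    · push Not at hx2
      refine ⟨0, fun ξ hξ => ⟨?_, h2 ξ hξ.1 hξ.2⟩⟩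
      rw [mem_ball_zero_iff]
      have h3 := norm_fst_lt hξ.2
      have h4 := u_ge hx ξ
      have h5 : ‖1 - (x : ℂ) * ξ.1‖ < ε := hξ.1
      have h6 := norm_nonneg ξ.1
      nlinarith
  obtain ⟨c, hc⟩ := h1
  refine (measure_mono hc).trans (le_of_eq ?_)
  rw [Measure.volume_eq_prod, Measure.prod_prod, Complex.volume_ball, Complex.volume_ball, e,
    ← ENNReal.ofReal_pow (by positivity), ← ENNReal.ofReal_pow (by positivity),
    Real.sq_sqrt (by positivity), ← ENNReal.ofReal_mul (by positivity),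
    ← ENNReal.ofReal_mul (by positivity), ← ENNReal.ofReal_mul (by positivity)]
  congr 1
  ring

/-! ### The two integrals -/

theorem int_nm : ∫⁻ ξ in B, ENNReal.ofReal (1 / nm ξ ^ 3) ≤ ENNReal.ofReal (16 * Real.pi ^ 2) := by
  have hcm : Continuous nm := N_continuous.sqrt
  have hm : ∀ j : ℕ, MeasurableSet {ξ : ℂ × ℂ | nm ξ ≤ (1 / 2 : ℝ) ^ j} := fun j =>
    (isClosed_le hcm continuous_const).measurableSet
  have h1 : ∀ ξ ∈ B, ENNReal.ofReal (1 / nm ξ ^ 3) ≤ ∑' j : ℕ,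
      ({ξ : ℂ × ℂ | nm ξ ≤ (1 / 2 : ℝ) ^ j}).indicator (fun _ => ENNReal.ofReal (8 ^ (j + 1))) ξ := by
    intro ξ hξ
    by_cases h0 : nm ξ = 0
    · rw [h0]
      simp
    · have h2 : 0 < nm ξ := lt_of_le_of_ne (nm_nonneg ξ) (Ne.symm h0)
      have h3 : nm ξ ≤ 1 := (mem_B_nm.1 hξ).le
      obtain ⟨j, hj1, hj2⟩ := exists_nat_pow_near_of_lt_one h2 h3
        (by norm_num : (0 : ℝ) < 1 / 2) (by norm_num)
      refine le_trans ?_ (ENNReal.le_tsum j)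
      rw [indicator_of_mem (by exact hj2)]
      apply ENNReal.ofReal_le_ofReal
      rw [div_le_iff₀ (by positivity)]
      have h4 : ((1 / 2 : ℝ) ^ (j + 1)) ^ 3 ≤ nm ξ ^ 3 := by gcongr
      have h5 : (8 : ℝ) ^ (j + 1) * ((1 / 2 : ℝ) ^ (j + 1)) ^ 3 = 1 := by
        rw [← pow_mul, mul_comm (j + 1) 3, pow_mul, ← mul_pow]
        norm_num
      rw [← h5]
      gcongr
  calc ∫⁻ ξ in B, ENNReal.ofReal (1 / nm ξ ^ 3)
      ≤ ∫⁻ ξ in B, ∑' j : ℕ, ({ξ : ℂ × ℂ | nm ξ ≤ (1 / 2 : ℝ) ^ j}).indicator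
          (fun _ => ENNReal.ofReal (8 ^ (j + 1))) ξ := setLIntegral_mono' B_meas h1
    _ = ∑' j : ℕ, ∫⁻ ξ in B, ({ξ : ℂ × ℂ | nm ξ ≤ (1 / 2 : ℝ) ^ j}).indicator
          (fun _ => ENNReal.ofReal (8 ^ (j + 1))) ξ :=
        lintegral_tsum fun j => (measurable_const.indicator (hm j)).aemeasurable
    _ ≤ ∑' j : ℕ, ENNReal.ofReal (8 * Real.pi ^ 2 * (1 / 2) ^ j) := by
        refine ENNReal.tsum_le_tsum fun j => ?_
        rw [lintegral_indicator (hm j), setLIntegral_const, Measure.restrict_apply (hm j)]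
        calc ENNReal.ofReal (8 ^ (j + 1)) * volume ({ξ : ℂ × ℂ | nm ξ ≤ (1 / 2 : ℝ) ^ j} ∩ B)
            ≤ ENNReal.ofReal (8 ^ (j + 1)) * ENNReal.ofReal (Real.pi ^ 2 * ((1 / 2) ^ j) ^ 4) := by
              gcongr
              exact (measure_mono inter_subset_left).trans (vol_nm _ (by positivity))
          _ = ENNReal.ofReal (8 * Real.pi ^ 2 * (1 / 2) ^ j) := by
              rw [← ENNReal.ofReal_mul (by positivity)]
              congr 1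
              have h5 : (8 : ℝ) ^ j * ((1 / 2 : ℝ) ^ j) ^ 3 = 1 := by
                rw [← pow_mul, mul_comm j 3, pow_mul, ← mul_pow]
                norm_num
              rw [pow_succ]
              linear_combination (8 * Real.pi ^ 2 * (1 / 2) ^ j) * h5
    _ = ENNReal.ofReal (∑' j : ℕ, 8 * Real.pi ^ 2 * (1 / 2) ^ j) := by
        rw [ENNReal.ofReal_tsum_of_nonneg (fun j => by positivity)
          ((summable_geometric_of_lt_one (by norm_num) (by norm_num)).mul_left _)]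
    _ = ENNReal.ofReal (16 * Real.pi ^ 2) := by
        rw [tsum_mul_left, tsum_geometric_of_lt_one (by norm_num) (by norm_num)]
        congr 1
        ring

theorem sum_le (φ : ℝ → ℝ) (hφ : Monotone φ) (h0 : ∀ t, 0 ≤ φ t) (h1 : ∀ t, φ t ≤ 1) :
    ∑' j : ℕ, ENNReal.ofReal (φ (4 / 2 ^ j)) ≤
      3 + 2 * ∫⁻ t in Ioo (0 : ℝ) 1, ENNReal.ofReal (φ t / t) := by
  have hs : ∑ i ∈ Finset.range 3, ENNReal.ofReal (φ (4 / 2 ^ i)) +
      ∑' i : ℕ, ENNReal.ofReal (φ (4 / 2 ^ (i + 3))) = ∑' i : ℕ, ENNReal.ofReal (φ (4 / 2 ^ i)) :=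
    Summable.sum_add_tsum_nat_add' (f := fun i : ℕ => ENNReal.ofReal (φ (4 / 2 ^ i)))
      ENNReal.summable
  rw [← hs]
  refine add_le_add ?_ ?_
  · calc ∑ i ∈ Finset.range 3, ENNReal.ofReal (φ (4 / 2 ^ i)) ≤ ∑ i ∈ Finset.range 3, (1 : ℝ≥0∞) :=
          Finset.sum_le_sum fun i _ => by
            rw [← ENNReal.ofReal_one]
            exact ENNReal.ofReal_le_ofReal (h1 _)
      _ = 3 := by simp
  · have h2 : ∀ j : ℕ, ENNReal.ofReal (φ (4 / 2 ^ (j + 3))) ≤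
        2 * ∫⁻ t in Ioo ((1 / 2 : ℝ) ^ (j + 1)) ((1 / 2) ^ j), ENNReal.ofReal (φ t / t) := by
      intro j
      have e : (4 : ℝ) / 2 ^ (j + 3) = (1 / 2) ^ (j + 1) := by
        rw [one_div, inv_pow, pow_add, pow_add]
        field_simp
        norm_num
      rw [e]
      set a : ℝ := φ ((1 / 2) ^ (j + 1)) with ha
      have ha0 : 0 ≤ a := h0 _
      have h3 : ENNReal.ofReal (a / (1 / 2) ^ j) *
          volume (Ioo ((1 / 2 : ℝ) ^ (j + 1)) ((1 / 2) ^ j)) ≤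
          ∫⁻ t in Ioo ((1 / 2 : ℝ) ^ (j + 1)) ((1 / 2) ^ j), ENNReal.ofReal (φ t / t) := by
        rw [← setLIntegral_const]
        refine setLIntegral_mono' measurableSet_Ioo fun t ht => ?_
        apply ENNReal.ofReal_le_ofReal
        have ht0 : 0 < t := lt_trans (by positivity) ht.1
        have h4 : a ≤ φ t := hφ ht.1.le
        have h5 : 0 ≤ φ t := h0 t
        calc a / (1 / 2) ^ j ≤ φ t / (1 / 2) ^ j := by gcongr
          _ ≤ φ t / t := by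
            apply div_le_div_of_nonneg_left h5 ht0 ht.2.le
      have h4 : ENNReal.ofReal (a / (1 / 2) ^ j) *
          volume (Ioo ((1 / 2 : ℝ) ^ (j + 1)) ((1 / 2) ^ j)) = ENNReal.ofReal (a / 2) := by
        rw [Real.volume_Ioo, ← ENNReal.ofReal_mul (by positivity)]
        congr 1
        rw [pow_succ]
        field_simp
        ring
      rw [h4] at h3
      calc ENNReal.ofReal a = 2 * ENNReal.ofReal (a / 2) := by
            rw [show (2 : ℝ≥0∞) = ENNReal.ofReal 2 by simp, ← ENNReal.ofReal_mul (by norm_num)]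
            congr 1
            ring
        _ ≤ _ := by gcongr
    refine (ENNReal.tsum_le_tsum h2).trans ?_
    rw [ENNReal.tsum_mul_left]
    gcongr
    have hanti : Antitone (fun j : ℕ => (1 / 2 : ℝ) ^ j) := fun i j hij =>
      pow_le_pow_of_le_one (by norm_num) (by norm_num) hij
    have hdis : Pairwise (Function.onFun Disjoint
        (fun j : ℕ => Ioo ((1 / 2 : ℝ) ^ (j + 1)) ((1 / 2) ^ j))) :=
      hanti.pairwise_disjoint_on_Ioo_succ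
    rw [← lintegral_iUnion (fun j => measurableSet_Ioo) hdis]
    apply lintegral_mono_set
    intro t ht
    obtain ⟨j, hj⟩ := mem_iUnion.1 ht
    exact ⟨lt_trans (by positivity) hj.1, lt_of_lt_of_le hj.2 (pow_le_one₀ (by norm_num) (by norm_num))⟩

theorem int_u {x : ℝ} (hx : 0 ≤ x) (hx1 : x < 1) (φ : ℝ → ℝ) (hφ : Monotone φ)
    (h0 : ∀ t, 0 ≤ φ t) (h1 : ∀ t, φ t ≤ 1) :
    ∫⁻ ξ in B, ENNReal.ofReal (φ (4 * (1 - x) / ‖1 - (x : ℂ) * ξ.1‖) / ‖1 - (x : ℂ) * ξ.1‖ ^ 3) ≤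
      ENNReal.ofReal (64 * Real.pi ^ 2) *
        (3 + 2 * ∫⁻ t in Ioo (0 : ℝ) 1, ENNReal.ofReal (φ t / t)) := by
  set d : ℝ := 1 - x with hd
  have hd0 : 0 < d := by rw [hd]; linarith
  have hcu : Continuous (fun ξ : ℂ × ℂ => ‖1 - (x : ℂ) * ξ.1‖) := by fun_prop
  have hm : ∀ j : ℕ, MeasurableSet {ξ : ℂ × ℂ | ‖1 - (x : ℂ) * ξ.1‖ < d * 2 ^ (j + 1)} := fun j =>
    (isOpen_lt hcu continuous_const).measurableSet
  have h2 : ∀ ξ ∈ B, ENNReal.ofReal (φ (4 * d / ‖1 - (x : ℂ) * ξ.1‖) / ‖1 - (x : ℂ) * ξ.1‖ ^ 3) ≤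
      ∑' j : ℕ, ({ξ : ℂ × ℂ | ‖1 - (x : ℂ) * ξ.1‖ < d * 2 ^ (j + 1)}).indicator
        (fun _ => ENNReal.ofReal (φ (4 / 2 ^ j) / (d * 2 ^ j) ^ 3)) ξ := by
    intro ξ hξ
    set u : ℝ := ‖1 - (x : ℂ) * ξ.1‖ with hu
    have hud : d ≤ u := by
      have h3 := u_ge hx ξ
      have h4 := norm_fst_lt hξ
      have h5 := norm_nonneg ξ.1
      rw [hd]
      nlinarith
    have hu0 : 0 < u := lt_of_lt_of_le hd0 hud
    obtain ⟨j, hj1, hj2⟩ := exists_nat_pow_near (show 1 ≤ u / d from (one_le_div hd0).2 hud)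
      (by norm_num : (1 : ℝ) < 2)
    refine le_trans ?_ (ENNReal.le_tsum j)
    have h3 : d * 2 ^ j ≤ u := by
      rw [le_div_iff₀ hd0] at hj1
      linarith
    have h4 : u < d * 2 ^ (j + 1) := by
      rw [div_lt_iff₀ hd0] at hj2
      linarith
    rw [indicator_of_mem (by exact h4)]
    apply ENNReal.ofReal_le_ofReal
    have h5 : φ (4 * d / u) ≤ φ (4 / 2 ^ j) := by
      apply hφ
      rw [div_le_div_iff₀ hu0 (by positivity)]
      nlinarith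
    have h6 := h0 (4 / 2 ^ j)
    gcongr
  calc ∫⁻ ξ in B, ENNReal.ofReal (φ (4 * d / ‖1 - (x : ℂ) * ξ.1‖) / ‖1 - (x : ℂ) * ξ.1‖ ^ 3)
      ≤ ∫⁻ ξ in B, ∑' j : ℕ, ({ξ : ℂ × ℂ | ‖1 - (x : ℂ) * ξ.1‖ < d * 2 ^ (j + 1)}).indicator
        (fun _ => ENNReal.ofReal (φ (4 / 2 ^ j) / (d * 2 ^ j) ^ 3)) ξ := setLIntegral_mono' B_meas h2
    _ = ∑' j : ℕ, ∫⁻ ξ in B, ({ξ : ℂ × ℂ | ‖1 - (x : ℂ) * ξ.1‖ < d * 2 ^ (j + 1)}).indicator
        (fun _ => ENNReal.ofReal (φ (4 / 2 ^ j) / (d * 2 ^ j) ^ 3)) ξ :=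
        lintegral_tsum fun j => (measurable_const.indicator (hm j)).aemeasurable
    _ ≤ ∑' j : ℕ, ENNReal.ofReal (64 * Real.pi ^ 2) * ENNReal.ofReal (φ (4 / 2 ^ j)) := by
        refine ENNReal.tsum_le_tsum fun j => ?_
        rw [lintegral_indicator (hm j), setLIntegral_const, Measure.restrict_apply (hm j)]
        have h6 := h0 (4 / 2 ^ j)
        calc ENNReal.ofReal (φ (4 / 2 ^ j) / (d * 2 ^ j) ^ 3) *
              volume ({ξ : ℂ × ℂ | ‖1 - (x : ℂ) * ξ.1‖ < d * 2 ^ (j + 1)} ∩ B)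
            ≤ ENNReal.ofReal (φ (4 / 2 ^ j) / (d * 2 ^ j) ^ 3) *
              ENNReal.ofReal (8 * Real.pi ^ 2 * (d * 2 ^ (j + 1)) ^ 3) := by
              gcongr
              exact vol_u hx hx1 _ (by positivity)
          _ = ENNReal.ofReal (64 * Real.pi ^ 2) * ENNReal.ofReal (φ (4 / 2 ^ j)) := by
              rw [← ENNReal.ofReal_mul (by positivity), ← ENNReal.ofReal_mul (by positivity)]
              congr 1
              rw [pow_succ]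
              field_simp
              ring
    _ = ENNReal.ofReal (64 * Real.pi ^ 2) * ∑' j : ℕ, ENNReal.ofReal (φ (4 / 2 ^ j)) :=
        ENNReal.tsum_mul_left
    _ ≤ _ := by
        gcongr
        exact sum_le φ hφ h0 h1

/-- the pointwise estimate -/
theorem ptwise (h6 : C6) {x : ℝ} (hx : 0 ≤ x) (hx1 : x < 1) (φ : ℝ → ℝ) (hφ : Monotone φ)
    (h0 : ∀ t, 0 ≤ φ t) (h1 : ∀ t, φ t ≤ 1) {ξ : ℂ × ℂ} (hξ : ξ ∈ B) :
    (1 - x ^ 2) ^ 3 / ‖1 - (x : ℂ) * ξ.1‖ ^ 6 *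
        (φ (1 - N (Ph x ξ)) * N290.RI.ker ((x : ℂ), 0) (Ph x ξ)) ≤
      8 * (1 / nm ξ ^ 3) +
        8 * (φ (4 * (1 - x) / ‖1 - (x : ℂ) * ξ.1‖) / ‖1 - (x : ℂ) * ξ.1‖ ^ 3) := by
  obtain ⟨-, -, e1, -, -, e2⟩ := h6 x hx hx1 ξ hξ
  unfold N290.RI.ker
  rw [e1, e2]
  set u : ℝ := ‖1 - (x : ℂ) * ξ.1‖ with hu
  have hux := u_ge hx ξ
  rw [← hu] at hux
  have hf := norm_fst_lt hξ
  have hf0 := norm_nonneg ξ.1
  have hN0 := N_nonneg ξ
  have hN1 : N ξ < 1 := hξ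
  have hn0 := nm_nonneg ξ
  have hn2 := nm_sq ξ
  have hx2 : 0 < 1 - x ^ 2 := by nlinarith
  have hu0 : 0 < u := by nlinarith
  have hNf : 1 - N ξ ≤ 1 - ‖ξ.1‖ ^ 2 := by
    unfold N
    nlinarith [sq_nonneg ‖ξ.2‖]
  have hNu : 1 - N ξ ≤ 2 * u := by nlinarith
  -- the square root
  have e3 : Real.sqrt ((1 - x ^ 2) ^ 2 * N ξ / u ^ 2) = (1 - x ^ 2) * nm ξ / u := by
    have e4 : (1 - x ^ 2) ^ 2 * N ξ / u ^ 2 = ((1 - x ^ 2) * nm ξ / u) ^ 2 := by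
      rw [div_pow, mul_pow, hn2]
    rw [e4, Real.sqrt_sq (by positivity)]
  rw [e3]
  -- the argument
  have e5 : (1 - x ^ 2) * (1 - N ξ) / u ^ 2 ≤ 4 * (1 - x) / u := by
    rw [div_le_div_iff₀ (by positivity) hu0]
    have e6 : (1 - x ^ 2) * (1 - N ξ) ≤ (2 * (1 - x)) * (2 * u) := by
      have e7 : 1 - x ^ 2 ≤ 2 * (1 - x) := by nlinarith
      have e8 : 0 ≤ 1 - N ξ := by linarith
      exact mul_le_mul e7 hNu e8 (by linarith)
    nlinarith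
  have hT := hφ e5
  have hT1 := h1 ((1 - x ^ 2) * (1 - N ξ) / u ^ 2)
  have hT0 := h0 ((1 - x ^ 2) * (1 - N ξ) / u ^ 2)
  have hS0 := h0 (4 * (1 - x) / u)
  generalize φ ((1 - x ^ 2) * (1 - N ξ) / u ^ 2) = T at *
  generalize φ (4 * (1 - x) / u) = S at *
  by_cases hn : nm ξ = 0
  · rw [hn]
    have : 0 ≤ S / u ^ 3 := by positivity
    simp
    positivity
  have hnp : 0 < nm ξ := lt_of_le_of_ne hn0 (Ne.symm hn)
  have e9 : (1 - x ^ 2) ^ 3 / u ^ 6 * (T * (1 / ((1 - x ^ 2) * nm ξ / u) ^ 3)) =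
      T / u ^ 3 * (1 / nm ξ ^ 3) := by
    field_simp
  rw [e9]
  rcases le_or_gt (nm ξ) (1 / 2) with hc | hc
  · have h7 : 1 / 2 ≤ u := by
      have h8 : ‖ξ.1‖ ^ 2 ≤ N ξ := by unfold N; nlinarith [sq_nonneg ‖ξ.2‖]
      have h9 : ‖ξ.1‖ ≤ nm ξ := by
        rw [← hn2] at h8
        exact abs_le_of_sq_le_sq' h8 hn0 |>.2
      nlinarith
    have h8 : T / u ^ 3 ≤ 8 := by
      rw [div_le_iff₀ (by positivity)]
      have h9 : (1 / 2 : ℝ) ^ 3 ≤ u ^ 3 := by gcongr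
      nlinarith
    have h9 : T / u ^ 3 * (1 / nm ξ ^ 3) ≤ 8 * (1 / nm ξ ^ 3) := by gcongr
    have h10 : 0 ≤ 8 * (S / u ^ 3) := by positivity
    linarith
  · have h7 : 1 / nm ξ ^ 3 ≤ 8 := by
      rw [div_le_iff₀ (by positivity)]
      have h9 : (1 / 2 : ℝ) ^ 3 ≤ nm ξ ^ 3 := by gcongr
      nlinarith
    have h8 : T / u ^ 3 * (1 / nm ξ ^ 3) ≤ S / u ^ 3 * 8 := by gcongr
    have h10 : 0 ≤ 8 * (1 / nm ξ ^ 3) := by positivity
    linarith

theorem C9_of (h3 : C3) (h4 : C4) (h6 : C6) : C9 := by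
  refine ⟨8 * (16 * Real.pi ^ 2) + 8 * (64 * Real.pi ^ 2 * 3), by positivity, ?_⟩
  intro φ hφ h0 h1 z hz
  set J : ℝ≥0∞ := ∫⁻ t in Ioo (0 : ℝ) 1, ENNReal.ofReal (φ t / t) with hJ
  -- reduction to a point `(x, 0)`
  obtain ⟨c, hc, hcz⟩ := exists_un z
  obtain ⟨-, -, h4c⟩ := h4 c hc
  set x : ℝ := nm z with hxdef
  have hx : 0 ≤ x := nm_nonneg z
  have hx1 : x < 1 := mem_B_nm.1 hz
  have e1 : ∫⁻ w in B, ENNReal.ofReal (φ (1 - N w) * N290.RI.ker z w) =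
      ∫⁻ w in B, ENNReal.ofReal (φ (1 - N w) * N290.RI.ker ((x : ℂ), 0) w) := by
    rw [h4c (fun w => ENNReal.ofReal (φ (1 - N w) * N290.RI.ker z w))]
    refine lintegral_congr fun w => ?_
    rw [N_un hc]
    conv_lhs => rw [← hcz]
    rw [ker_un hc]
  -- change of variables
  obtain ⟨-, h3x, -⟩ := h3 x hx hx1
  have hF : Measurable (fun w : ℂ × ℂ =>
      ENNReal.ofReal (φ (1 - N w) * N290.RI.ker ((x : ℂ), 0) w)) := by
    have m1 : Measurable (fun w : ℂ × ℂ => φ (1 - N w)) :=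
      hφ.measurable.comp (N_continuous.measurable.const_sub 1)
    exact (m1.mul (ker_meas _)).ennreal_ofReal
  rw [e1, h3x _ hF]
  have hcn : Continuous nm := N_continuous.sqrt
  calc ∫⁻ ξ in B, ENNReal.ofReal ((1 - x ^ 2) ^ 3 / ‖1 - (x : ℂ) * ξ.1‖ ^ 6) *
        ENNReal.ofReal (φ (1 - N (Ph x ξ)) * N290.RI.ker ((x : ℂ), 0) (Ph x ξ))
      ≤ ∫⁻ ξ in B, (ENNReal.ofReal 8 * ENNReal.ofReal (1 / nm ξ ^ 3) + ENNReal.ofReal 8 *
          ENNReal.ofReal (φ (4 * (1 - x) / ‖1 - (x : ℂ) * ξ.1‖) / ‖1 - (x : ℂ) * ξ.1‖ ^ 3)) := by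
        refine setLIntegral_mono' B_meas fun ξ hξ => ?_
        have hx2 : 0 ≤ 1 - x ^ 2 := by nlinarith
        have hn := nm_nonneg ξ
        have hS := h0 (4 * (1 - x) / ‖1 - (x : ℂ) * ξ.1‖)
        rw [← ENNReal.ofReal_mul (by positivity), ← ENNReal.ofReal_mul (by norm_num),
          ← ENNReal.ofReal_mul (by norm_num), ← ENNReal.ofReal_add (by positivity) (by positivity)]
        exact ENNReal.ofReal_le_ofReal (ptwise h6 hx hx1 φ hφ h0 h1 hξ)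
    _ = ENNReal.ofReal 8 * (∫⁻ ξ in B, ENNReal.ofReal (1 / nm ξ ^ 3)) + ENNReal.ofReal 8 *
          ∫⁻ ξ in B, ENNReal.ofReal
            (φ (4 * (1 - x) / ‖1 - (x : ℂ) * ξ.1‖) / ‖1 - (x : ℂ) * ξ.1‖ ^ 3) := by
        have m1 : Measurable (fun ξ : ℂ × ℂ => ENNReal.ofReal (1 / nm ξ ^ 3)) :=
          ((hcn.measurable.pow_const 3).const_div 1).ennreal_ofReal
        rw [lintegral_add_left (m1.const_mul _), lintegral_const_mul' _ _ ENNReal.ofReal_ne_top,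
          lintegral_const_mul' _ _ ENNReal.ofReal_ne_top]
    _ ≤ ENNReal.ofReal 8 * ENNReal.ofReal (16 * Real.pi ^ 2) + ENNReal.ofReal 8 *
          (ENNReal.ofReal (64 * Real.pi ^ 2) * (3 + 2 * J)) := by
        gcongr
        · exact int_nm
        · exact int_u hx hx1 φ hφ h0 h1
    _ ≤ ENNReal.ofReal 8 * ENNReal.ofReal (16 * Real.pi ^ 2) * (1 + J) + ENNReal.ofReal 8 *
          (ENNReal.ofReal (64 * Real.pi ^ 2) * (3 * (1 + J))) := by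
        have k1 : (1 : ℝ≥0∞) ≤ 1 + J := le_self_add
        have k2 : 3 + 2 * J ≤ 3 * (1 + J) := by
          rw [mul_add, mul_one]
          gcongr
          norm_num
        refine add_le_add ?_ ?_
        · calc ENNReal.ofReal 8 * ENNReal.ofReal (16 * Real.pi ^ 2)
              = ENNReal.ofReal 8 * ENNReal.ofReal (16 * Real.pi ^ 2) * 1 := (mul_one _).symm
            _ ≤ _ := mul_le_mul_right k1 _
        · exact mul_le_mul_right (mul_le_mul_right k2 _) _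
    _ = ENNReal.ofReal (8 * (16 * Real.pi ^ 2) + 8 * (64 * Real.pi ^ 2 * 3)) * (1 + J) := by
        have k3 : ENNReal.ofReal (8 * (16 * Real.pi ^ 2)) =
            ENNReal.ofReal 8 * ENNReal.ofReal (16 * Real.pi ^ 2) := ENNReal.ofReal_mul (by norm_num)
        have k4 : ENNReal.ofReal (8 * (64 * Real.pi ^ 2 * 3)) =
            ENNReal.ofReal 8 * (ENNReal.ofReal (64 * Real.pi ^ 2) * 3) := by
          rw [ENNReal.ofReal_mul (by norm_num), ENNReal.ofReal_mul (q := 3) (by positivity)]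
          simp
        rw [ENNReal.ofReal_add (by positivity) (by positivity), k3, k4]
        ring

end Pool.Agent.N247.RI
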